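import Pool.Agent.Helper60.ER.Glob

/-!
The family for a finite measure whose space of integrable functions has a dense set of
cardinality at most aleph one.
-/

namespace H60ER

open MeasureTheory H60Unc H60Mah

/-- decomposition into pieces with their bits and subadditive functions -/
theorem pieces (p : ENNReal) [Fact (1 ≤ p)] (hp : p ≠ ⊤) {Ω : Type} [MeasurableSpace Ω]
    (μ : Measure Ω) [IsFiniteMeasure μ] (D : Set (Lp ℝ p μ)) (hd : Dense D)
    (hc : Cardinal.mk D ≤ Cardinal.aleph 1) :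
    ∃ (N : Type) (_ : Countable N) (pc : N → Piece μ),
      Pairwise (Function.onFun Disjoint fun n => (pc n).E) ∧ μ (⋃ n, (pc n).E)ᶜ = 0 := by
  classical
  obtain ⟨P, hP, hdisj, hcov⟩ := decomposition p hp μ D hd hc
  let N : Type := {n : ℕ // 0 < μ (P n)}
  have hgood : ∀ n : N, Good μ (P n) := by
    intro n
    rcases hP n with h | h
    · exact h
    · exfalso
      have := n.2
      rw [h, measure_empty] at this
      exact lt_irrefl _ this
  choose pc hpc using fun n : N => piece_of_good (hgood n) n.2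
  refine ⟨N, inferInstance, pc, ?_, ?_⟩
  · intro m n hmn
    simp only [Function.onFun, hpc]
    exact hdisj fun h => hmn (Subtype.ext h)
  · have h1 : (⋃ n, (pc n).E)ᶜ ⊆ (⋃ n, P n)ᶜ ∪ ⋃ n ∈ {n : ℕ | μ (P n) = 0}, P n := by
      intro w hw
      by_cases h : w ∈ ⋃ n, P n
      · right
        simp only [Set.mem_iUnion] at h ⊢
        obtain ⟨n, hn⟩ := h
        refine ⟨n, ?_, hn⟩
        by_contra hne
        have hpos : 0 < μ (P n) := pos_iff_ne_zero.mpr hne
        apply hw
        simp only [Set.mem_iUnion]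
        exact ⟨⟨n, hpos⟩, by rw [hpc]; exact hn⟩
      · left; exact h
    refine measure_mono_null h1 (measure_union_null hcov ?_)
    exact (measure_biUnion_null_iff (Set.to_countable _)).mpr fun n hn => hn

theorem er_set {T : Type} [MeasurableSpace T] (μ : Measure T) [IsFiniteMeasure μ]
    (hD : ∃ D : Set (Lp ℝ 1 μ), Dense D ∧ Cardinal.mk ↥D ≤ Cardinal.aleph 1) :
    ∃ (I : Type) (x : I → Lp ℝ 1 μ),
      (Submodule.span ℝ (Set.range x)).topologicalClosure = ⊤ ∧ (∀ i, x i ≠ 0) ∧
      ∀ f : ℕ → I, Function.Injective f → ∃ π : Equiv.Perm ℕ,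
        ∀ (a : ℕ → ℝ) (m n : ℕ), m ≤ n →
          ‖∑ k ∈ Finset.range m, a k • x (f (π k))‖ ≤
            7 * ‖∑ k ∈ Finset.range n, a k • x (f (π k))‖ := by
  obtain ⟨D, hd, hc⟩ := hD
  obtain ⟨N, hN, pc, hdisj, hcov⟩ := pieces 1 ENNReal.one_ne_top μ D hd hc
  refine ⟨JJ pc, XX pc 1, ?_, XX_ne_zero pc one_ne_zero, fun f hf => er_seq pc hdisj f hf⟩
  exact complete pc ENNReal.one_ne_top hdisj hcov _ (Submodule.isClosed_topologicalClosure _)
    (fun j => Submodule.le_topologicalClosure _ (Submodule.subset_span ⟨j, rfl⟩))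

end H60ER
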