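import Pool.Agent.Helper60.ER.Key
import Pool.Agent.Helper60.Mah.Final
import Pool.Agent.H763.Mah

/-!
The enumeration of countably many functions of the union of the systems of countably many
pieces as a basic sequence in the space of integrable functions.
-/

namespace H60ER

open MeasureTheory Finset H60Unc H60Mah

variable {Ω : Type} [MeasurableSpace Ω] {μ : Measure Ω} {N : Type} (pc : N → Piece μ)
  [IsFiniteMeasure μ]

theorem comb_int1 (n : N) (d : Finset (Idx (pc n).P)) (a : Idx (pc n).P → ℝ) :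
    Integrable (fun w => |∑ i ∈ d, a i * e i (fun k => (pc n).b k w)|) μ := by
  have h := comb_int pc (p := 1) one_ne_zero ENNReal.one_ne_top n d a
  simpa only [ENNReal.toReal_one, Real.rpow_one] using h

theorem int_split [DecidableEq N]
    (hdisj : Pairwise (Function.onFun Disjoint fun n => (pc n).E))
    (d : Finset (JJ pc)) (c : JJ pc → ℝ) :
    ∫ w, |∑ j ∈ d, c j * fn pc j w| ∂μ
      = ∑ n ∈ d.image Sigma.fst, ∫ w in (pc n).E,
          |∑ i ∈ d.preimage (Sigma.mk n) sigma_mk_injective.injOn,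
            c ⟨n, i⟩ * e i (fun k => (pc n).b k w)| ∂μ := by
  have h0 : ∀ w, |∑ j ∈ d, c j * fn pc j w|
      = ∑ n ∈ d.image Sigma.fst, (pc n).E.indicator (fun w =>
          |∑ i ∈ d.preimage (Sigma.mk n) sigma_mk_injective.injOn,
            c ⟨n, i⟩ * e i (fun k => (pc n).b k w)|) w := by
    intro w
    have h := pointwise pc (pr := 1) one_pos hdisj d c w
    simpa only [Real.rpow_one] using h
  simp only [h0]
  rw [integral_finsetSum]
  · refine Finset.sum_congr rfl fun n _ => ?_
    rw [integral_indicator (pc n).hE]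
  · intro n _
    exact (comb_int1 pc n _ _).indicator (pc n).hE

theorem norm_one (d : Finset (JJ pc)) (c : JJ pc → ℝ) :
    ‖∑ j ∈ d, c j • XX pc 1 j‖ = ∫ w, |∑ j ∈ d, c j * fn pc j w| ∂μ := by
  have h := norm_rpow 1 one_ne_zero ENNReal.one_ne_top _ _ (sum_coe' pc 1 d c)
  simpa only [ENNReal.toReal_one, Real.rpow_one] using h

theorem glob_init (hdisj : Pairwise (Function.onFun Disjoint fun n => (pc n).E))
    (d : Finset (JJ pc)) (c ep : JJ pc → ℝ)
    (h : ∀ n : N, ∫ w in (pc n).E,
          |∑ i ∈ d.preimage (Sigma.mk n) sigma_mk_injective.injOn,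
            (ep ⟨n, i⟩ * c ⟨n, i⟩) * e i (fun k => (pc n).b k w)| ∂μ
        ≤ 7 * ∫ w in (pc n).E,
          |∑ i ∈ d.preimage (Sigma.mk n) sigma_mk_injective.injOn,
            c ⟨n, i⟩ * e i (fun k => (pc n).b k w)| ∂μ) :
    ‖∑ j ∈ d, (ep j * c j) • XX pc 1 j‖ ≤ 7 * ‖∑ j ∈ d, c j • XX pc 1 j‖ := by
  classical
  rw [norm_one pc d (fun j => ep j * c j), norm_one, int_split pc hdisj, int_split pc hdisj,
    Finset.mul_sum]
  exact Finset.sum_le_sum fun n _ => h n

theorem pair_thr (e T : ℕ) : ∃ k, ∀ x, Nat.pair e x < T ↔ x < k := by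
  have hex : ∃ x, T ≤ Nat.pair e x := ⟨T, Nat.right_le_pair e T⟩
  refine ⟨Nat.find hex, fun x => ?_⟩
  constructor
  · intro h
    by_contra h2
    have h3 : Nat.find hex ≤ x := not_lt.mp h2
    have h4 := Nat.find_spec hex
    rcases h3.eq_or_lt with h5 | h5
    · rw [h5] at h4; omega
    · have := Nat.pair_lt_pair_right e h5
      omega
  · intro h
    exact not_le.mp (Nat.find_min hex h)

theorem er_seq [Countable N] (hdisj : Pairwise (Function.onFun Disjoint fun n => (pc n).E))
    (f : ℕ → JJ pc) (hf : Function.Injective f) :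
    ∃ π : Equiv.Perm ℕ, ∀ (a : ℕ → ℝ) (m n : ℕ), m ≤ n →
      ‖∑ k ∈ range m, a k • XX pc 1 (f (π k))‖
        ≤ 7 * ‖∑ k ∈ range n, a k • XX pc 1 (f (π k))‖ := by
  classical
  obtain ⟨enc, henc⟩ := exists_injective_nat N
  have hC : ∀ n : N, {i : Idx (pc n).P | (⟨n, i⟩ : JJ pc) ∈ Set.range f}.Countable := fun n =>
    (Set.countable_range f).preimage (sigma_mk_injective (i := n))
  choose S hS using fun n => exists_sys (pc n).P _ (hC n)
  choose r hr1 hr2 using fun n => (S n).rank
  let gk : JJ pc → ℕ := fun j => Nat.pair (enc j.1) (r j.1 j.2)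
  have hin : ∀ n i, (⟨n, i⟩ : JJ pc) ∈ Set.range f → i ∈ (S n).D := fun n i h => hS n h
  have hgk : ∀ x ∈ Set.range f, ∀ y ∈ Set.range f, gk x = gk y → x = y := by
    rintro ⟨n, i⟩ hx ⟨n', i'⟩ hy hxy
    have h1 := Nat.pair_eq_pair.mp hxy
    have h2 : n = n' := henc h1.1
    subst h2
    have h3 := hr1 n (hin n i hx) (hin n i' hy) h1.2
    rw [h3]
  obtain ⟨π, hπ⟩ := sort_perm (fun k => gk (f k)) fun k l hkl =>
    hf (hgk _ ⟨k, rfl⟩ _ ⟨l, rfl⟩ hkl)
  refine ⟨π, fun a m n hmn => ?_⟩
  rcases hmn.eq_or_lt with rfl | hlt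
  · have := norm_nonneg (∑ k ∈ range m, a k • XX pc 1 (f (π k)))
    linarith
  have hg : Function.Injective (fun k => f (π k)) := fun k l hkl => π.injective (hf hkl)
  set g : ℕ ↪ JJ pc := ⟨fun k => f (π k), hg⟩ with hgdef
  set d : Finset (JJ pc) := (range n).map g with hd
  set c : JJ pc → ℝ := Function.extend g a 0 with hc
  have hcg : ∀ k, c (g k) = a k := fun k => g.injective.extend_apply a 0 k
  set T : ℕ := gk (f (π m)) with hT
  set ep : JJ pc → ℝ := fun j => if gk j < T then 1 else 0 with hep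
  have hmono : ∀ k, gk (g k) < T ↔ k < m := by
    intro k
    constructor
    · intro h
      by_contra h2
      rcases (not_lt.mp h2).eq_or_lt with h3 | h3
      · subst h3; exact lt_irrefl _ h
      · exact lt_asymm h (hπ m k h3)
    · intro h; exact hπ k m h
  have e1 : ∑ k ∈ range n, a k • XX pc 1 (f (π k)) = ∑ j ∈ d, c j • XX pc 1 j := by
    rw [hd, Finset.sum_map]
    refine Finset.sum_congr rfl fun k _ => ?_
    rw [hcg]
    rfl
  have e2 : ∑ k ∈ range m, a k • XX pc 1 (f (π k)) = ∑ j ∈ d, (ep j * c j) • XX pc 1 j := by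
    rw [hd, Finset.sum_map]
    rw [← Finset.sum_subset (Finset.range_subset_range.mpr hlt.le)]
    · refine Finset.sum_congr rfl fun k hk => ?_
      have h1 : ep (g k) = 1 := by
        simp only [hep]
        rw [if_pos ((hmono k).mpr (Finset.mem_range.mp hk))]
      rw [hcg, h1, one_mul]
      rfl
    · intro k _ hk
      have h1 : ep (g k) = 0 := by
        simp only [hep]
        rw [if_neg]
        rw [hmono]
        exact fun h => hk (Finset.mem_range.mpr h)
      rw [h1, zero_mul, zero_smul]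
  rw [e1, e2]
  refine glob_init pc hdisj d c ep fun n' => ?_
  have hD : ∀ i ∈ d.preimage (Sigma.mk n') sigma_mk_injective.injOn, i ∈ (S n').D := by
    intro i hi
    rw [Finset.mem_preimage, hd, Finset.mem_map] at hi
    obtain ⟨k, _, hk⟩ := hi
    exact hin n' i ⟨π k, hk⟩
  obtain ⟨kk, hkk⟩ := pair_thr (enc n') T
  rcases hr2 n' kk with ⟨i₀, _, h0⟩ | h0
  · have h1 := piece_init (pc n').hE (pc n').fair (S n') i₀ _ hD (fun i => c ⟨n', i⟩)
    refine le_trans (le_of_eq ?_) h1
    refine integral_congr_ae (Filter.Eventually.of_forall fun w => ?_)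
    simp only
    congr 1
    refine Finset.sum_congr rfl fun i hi => ?_
    have h2 : gk ⟨n', i⟩ < T ↔ (S n').key i < (S n').key i₀ := by
      rw [← h0 i (hD i hi), ← hkk]
    by_cases h3 : gk ⟨n', i⟩ < T
    · simp only [hep]
      rw [if_pos h3, if_pos (h2.mp h3), one_mul]
    · simp only [hep]
      rw [if_neg h3, if_neg (fun h => h3 (h2.mpr h)), zero_mul]
  · have h1 : ∫ w in (pc n').E,
          |∑ i ∈ d.preimage (Sigma.mk n') sigma_mk_injective.injOn,
            (ep ⟨n', i⟩ * c ⟨n', i⟩) * e i (fun k => (pc n').b k w)| ∂μ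
        = ∫ w in (pc n').E,
          |∑ i ∈ d.preimage (Sigma.mk n') sigma_mk_injective.injOn,
            c ⟨n', i⟩ * e i (fun k => (pc n').b k w)| ∂μ := by
      refine integral_congr_ae (Filter.Eventually.of_forall fun w => ?_)
      simp only
      congr 1
      refine Finset.sum_congr rfl fun i hi => ?_
      have h3 : gk ⟨n', i⟩ < T := (hkk _).mpr (h0 i (hD i hi))
      simp only [hep]
      rw [if_pos h3, one_mul]
    rw [h1]
    have h2 : 0 ≤ ∫ w in (pc n').E,
          |∑ i ∈ d.preimage (Sigma.mk n') sigma_mk_injective.injOn,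
            c ⟨n', i⟩ * e i (fun k => (pc n').b k w)| ∂μ :=
      integral_nonneg fun w => abs_nonneg _
    linarith

end H60ER
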