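import Mathlib

set_option autoImplicit false

namespace H60ER

/-- the two subadditivity properties -/
structure Sub2' {V : Type*} [LinearOrder V] (rho : V → V → ℕ) : Prop where
  ha : ∀ a b c, a < b → b < c → rho a c ≤ max (rho a b) (rho b c)
  hb : ∀ a b c, a < b → b < c → rho a b ≤ max (rho a c) (rho b c)

/-- existence of an increasing sequence of good finite sets which covers a countable set.
Proof: if C is empty take the empty sets. Otherwise let c : ℕ → I have range C, d m = max of
c 0, .., c m, k 0 = 0, k (m+1) = max (k m + 1) (rho (d m) (d (m+1))),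
G m = {a | a = d m or (a < d m and rho a (d m) ≤ k m)} (finite by hfin).
Good with bound k m: for x in G m and a < x: if rho a x ≤ k m then rho a (d m) ≤ k m by ha;
conversely if rho a (d m) ≤ k m then rho a x ≤ k m by hb. Monotone: by ha and the choice of
k (m+1) (if d m = d (m+1) only k grows). Cover: for c i let m be large (k m ≥ m): by induction
on m ≥ i, c i = d m or rho (c i) (d m) ≤ max (rho (c i) (d i)) (k m). -/
theorem good_seq {I : Type*} [LinearOrder I] (rho : I → I → ℕ) (hrho : Sub2' rho)
    (hfin : ∀ (x : I) (m : ℕ), {u | u < x ∧ rho u x ≤ m}.Finite) (C : Set I) (hC : C.Countable) :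
    ∃ (G : ℕ → Finset I) (k : ℕ → ℕ), Monotone G ∧ (∀ c ∈ C, ∃ m, c ∈ G m) ∧
      ∀ m, ∀ x ∈ G m, ∀ a < x, (a ∈ G m ↔ rho a x ≤ k m) := by
  classical
  rcases C.eq_empty_or_nonempty with rfl | hne
  · exact ⟨fun _ => ∅, fun _ => 0, fun _ _ _ => le_rfl, by simp, by simp⟩
  obtain ⟨c, hc⟩ := hC.exists_eq_range hne
  let d : ℕ → I := fun m => Nat.rec (motive := fun _ => I) (c 0) (fun m x => max x (c (m + 1))) m
  have hd0 : d 0 = c 0 := rfl
  have hds : ∀ m, d (m + 1) = max (d m) (c (m + 1)) := fun m => rfl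
  let k : ℕ → ℕ := fun m => Nat.rec (motive := fun _ => ℕ) 0
    (fun m x => max (x + 1) (rho (d m) (d (m + 1)))) m
  have hks : ∀ m, k (m + 1) = max (k m + 1) (rho (d m) (d (m + 1))) := fun m => rfl
  have hk1 : ∀ m, k m ≤ k (m + 1) := fun m => by
    rw [hks]; exact (Nat.le_succ _).trans (le_max_left _ _)
  have hk2 : ∀ m, rho (d m) (d (m + 1)) ≤ k (m + 1) := fun m => by
    rw [hks]; exact le_max_right _ _
  have hk3 : ∀ m, m ≤ k m := by
    intro m
    induction m with
    | zero => exact Nat.zero_le _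
    | succ m ih => rw [hks]; exact (Nat.succ_le_succ ih).trans (le_max_left _ _)
  have hd1 : ∀ m, d m ≤ d (m + 1) := fun m => by rw [hds]; exact le_max_left _ _
  have hcd : ∀ m, c m ≤ d m := by
    intro m
    cases m with
    | zero => exact le_of_eq hd0.symm
    | succ m => rw [hds]; exact le_max_right _ _
  have hfinG : ∀ m, {a | a = d m ∨ (a < d m ∧ rho a (d m) ≤ k m)}.Finite := by
    intro m
    have : {a | a = d m ∨ (a < d m ∧ rho a (d m) ≤ k m)} =
        {d m} ∪ {u | u < d m ∧ rho u (d m) ≤ k m} := by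
      ext a; simp
    rw [this]
    exact (Set.finite_singleton _).union (hfin _ _)
  have hmem : ∀ m a, a ∈ (hfinG m).toFinset ↔ (a = d m ∨ (a < d m ∧ rho a (d m) ≤ k m)) := by
    intro m a
    rw [Set.Finite.mem_toFinset]; rfl
  refine ⟨fun m => (hfinG m).toFinset, k, ?_, ?_, ?_⟩
  · apply monotone_nat_of_le_succ
    intro m a ha
    replace ha := (hmem m a).1 ha
    apply (hmem (m + 1) a).2
    rcases (hd1 m).eq_or_lt with he | hlt
    · rw [← he]
      rcases ha with ha | ⟨ha, hb⟩
      · exact Or.inl ha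
      · exact Or.inr ⟨ha, hb.trans (hk1 m)⟩
    · rcases ha with ha | ⟨ha, hb⟩
      · subst ha
        exact Or.inr ⟨hlt, hk2 m⟩
      · exact Or.inr ⟨ha.trans hlt, (hrho.ha _ _ _ ha hlt).trans
          (max_le (hb.trans (hk1 m)) (hk2 m))⟩
  · intro x hx
    rw [hc] at hx
    obtain ⟨i, rfl⟩ := hx
    have key : ∀ j, c i = d (i + j) ∨
        (c i < d (i + j) ∧ rho (c i) (d (i + j)) ≤ max (rho (c i) (d i)) (k (i + j))) := by
      intro j
      induction j with
      | zero =>
        rcases (hcd i).eq_or_lt with h | h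
        · exact Or.inl h
        · exact Or.inr ⟨h, le_max_left _ _⟩
      | succ j ih =>
        rw [← add_assoc]
        rcases (hd1 (i + j)).eq_or_lt with he | hlt
        · rw [← he]
          rcases ih with h | ⟨h1, h2⟩
          · exact Or.inl h
          · exact Or.inr ⟨h1, h2.trans (max_le_max le_rfl (hk1 _))⟩
        · rcases ih with h | ⟨h1, h2⟩
          · rw [h]
            exact Or.inr ⟨hlt, (hk2 _).trans (le_max_right _ _)⟩
          · refine Or.inr ⟨h1.trans hlt, (hrho.ha _ _ _ h1 hlt).trans ?_⟩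
            exact max_le (h2.trans (max_le_max le_rfl (hk1 _))) ((hk2 _).trans (le_max_right _ _))
    refine ⟨i + rho (c i) (d i), ?_⟩
    rw [hmem]
    rcases key (rho (c i) (d i)) with h | ⟨h1, h2⟩
    · exact Or.inl h
    · refine Or.inr ⟨h1, h2.trans (max_le ?_ le_rfl)⟩
      exact (Nat.le_add_left _ _).trans (hk3 _)
  · intro m x hx a hax
    rw [hmem] at hx ⊢
    rcases hx with rfl | ⟨h1, h2⟩
    · constructor
      · rintro (h | h)
        · exact absurd h hax.ne
        · exact h.2
      · intro h; exact Or.inr ⟨hax, h⟩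
    · constructor
      · rintro (h | h)
        · exact absurd (h ▸ hax.trans h1) (lt_irrefl _)
        · exact (hrho.hb _ _ _ hax h1).trans (max_le h.2 h2)
      · intro h
        exact Or.inr ⟨hax.trans h1, (hrho.ha _ _ _ hax h1).trans (max_le h h2)⟩

end H60ER
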