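import Mathlib

set_option autoImplicit false

namespace H60ER

/-- an injective natural key can be sorted by a permutation -/
theorem sort_perm (key : ℕ → ℕ) (h : Function.Injective key) :
    ∃ π : Equiv.Perm ℕ, ∀ i j : ℕ, i < j → key (π i) < key (π j) := by
  classical
  haveI : Infinite (Set.range key) := (Set.infinite_range_of_injective h).to_subtype
  let o := Nat.Subtype.orderIsoOfNat (Set.range key)
  let e := Equiv.ofInjective key h
  refine ⟨o.toEquiv.trans e.symm, ?_⟩
  have key1 : ∀ i, key ((o.toEquiv.trans e.symm) i) = (o i : ℕ) := by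
    intro i
    have h1 : e ((o.toEquiv.trans e.symm) i) = o i := by
      simp
    have h2 := congrArg Subtype.val h1
    exact h2
  intro i j hij
  rw [key1, key1]
  exact o.strictMono hij

/-- rank function of a set which is ordered by a key with finite initial segments -/
theorem rank_fun {J K : Type*} [LinearOrder K] (D : Set J) (key : J → K)
    (hinj : Set.InjOn key D) (hfin : ∀ i ∈ D, {j | j ∈ D ∧ key j < key i}.Finite) :
    ∃ r : J → ℕ, Set.InjOn r D ∧
      ∀ k : ℕ, (∃ i₀ ∈ D, ∀ i ∈ D, r i < k ↔ key i < key i₀) ∨ (∀ i ∈ D, r i < k) := by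
  classical
  let r : J → ℕ := fun i => {j | j ∈ D ∧ key j < key i}.ncard
  have hmono : ∀ i ∈ D, ∀ j ∈ D, key i < key j → r i < r j := by
    intro i hi j hj hij
    apply Set.ncard_lt_ncard _ (hfin j hj)
    refine ⟨fun x hx => ⟨hx.1, hx.2.trans hij⟩, fun hsub => ?_⟩
    have := hsub (show i ∈ {x | x ∈ D ∧ key x < key j} from ⟨hi, hij⟩)
    exact lt_irrefl _ this.2
  have hiff : ∀ i ∈ D, ∀ j ∈ D, (key i < key j ↔ r i < r j) := by
    intro i hi j hj
    refine ⟨hmono i hi j hj, fun h => ?_⟩
    rcases lt_trichotomy (key i) (key j) with h1 | h1 | h1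
    · exact h1
    · exact absurd h (by rw [hinj hi hj h1]; exact lt_irrefl _)
    · exact absurd (hmono j hj i hi h1) (by omega)
  refine ⟨r, ?_, ?_⟩
  · intro i hi j hj hij
    apply hinj hi hj
    rcases lt_trichotomy (key i) (key j) with h1 | h1 | h1
    · have := hmono i hi j hj h1; omega
    · exact h1
    · have := hmono j hj i hi h1; omega
  · intro k
    by_cases hk : ∃ m, ∃ i ∈ D, k ≤ r i ∧ r i = m
    · left
      obtain ⟨i₀, hi₀, hki, hm⟩ := Nat.find_spec hk
      refine ⟨i₀, hi₀, fun i hi => ?_⟩
      rw [hiff i hi i₀ hi₀]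
      constructor
      · intro h1; omega
      · intro h1
        by_contra h2
        exact Nat.find_min hk (m := r i) (by omega) ⟨i, hi, by omega, rfl⟩
    · right
      intro i hi
      by_contra h2
      exact hk ⟨r i, i, hi, by omega, rfl⟩

end H60ER
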