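import Pool.Agent.Helper60.ER.Vlev
import Pool.Agent.Helper60.ER.Sort
import Pool.Agent.Helper60.ER.Seq
import Pool.Agent.Helper60.Mah.Piece

/-!
The order of the indices given by an increasing sequence of closed sets, and the bound of the
initial sums in the mean value norm.
-/

namespace H60ER

open Finset H60Unc MeasureTheory

variable {I : Type*} [LinearOrder I] {P : Pack I}

/-- an increasing sequence of closed finite sets -/
structure Sys (P : Pack I) where
  G : ℕ → Finset I
  mono : Monotone G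
  clo : ∀ m, Clo P (G m)

/-- the indices which are eventually inside -/
def Sys.D (S : Sys P) : Set (Idx P) := {i | ∃ m, supp i ⊆ S.G m}

/-- the stage of an index -/
noncomputable def Sys.st (S : Sys P) (i : Idx P) : ℕ := sInf {m | supp i ⊆ S.G m}

theorem Sys.st_le_iff {S : Sys P} {i : Idx P} (hi : i ∈ S.D) {m : ℕ} :
    S.st i ≤ m ↔ supp i ⊆ S.G m := by
  constructor
  · intro h
    have h1 : S.st i ∈ {m | supp i ⊆ S.G m} := Nat.sInf_mem hi
    exact Finset.Subset.trans h1 (S.mono h)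
  · intro h
    exact Nat.sInf_le h

/-- the key -/
noncomputable def Sys.key (S : Sys P) (i : Idx P) : ℕ ×ₗ KK2 I := toLex (S.st i, kappa i)

theorem Sys.key_lt {S : Sys P} {i j : Idx P} : S.key i < S.key j ↔
    (S.st i < S.st j ∨ (S.st i = S.st j ∧ kappa i < kappa j)) := by
  simp only [Sys.key, Prod.Lex.toLex_lt_toLex]

theorem kappa_inj : Function.Injective (kappa : Idx P → KK2 I) := by
  intro i j hij
  rcases i with _ | x | t <;> rcases j with _ | y | t'
  · rfl
  · simp [kappa] at hij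
  · simp [kappa] at hij
  · simp [kappa] at hij
  · simp only [kappa, WithBot.coe_inj, EmbeddingLike.apply_eq_iff_eq, Prod.mk.injEq] at hij
    rw [hij.1]
  · simp [kappa] at hij
  · simp [kappa] at hij
  · simp [kappa] at hij
  · simp only [kappa, WithBot.coe_inj, EmbeddingLike.apply_eq_iff_eq, Prod.mk.injEq] at hij
    obtain ⟨hx, ⟨_, ha⟩, hs⟩ := hij
    cases t; cases t'
    simp only at hx ha hs
    subst hx ha hs
    rfl

theorem Sys.key_inj (S : Sys P) : Function.Injective S.key := by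
  intro i j hij
  simp only [Sys.key, EmbeddingLike.apply_eq_iff_eq, Prod.mk.injEq] at hij
  exact kappa_inj hij.2

theorem idx_finite (G : Finset I) : {i : Idx P | supp i ⊆ G}.Finite := by
  classical
  let f : Idx P → Option (I ⊕ (I × I × Finset I)) := fun i => match i with
    | none => none
    | some (Sum.inl x) => some (Sum.inl x)
    | some (Sum.inr t) => some (Sum.inr (t.x, t.a, t.s))
  have hf : Function.Injective f := by
    intro i j hij
    rcases i with _ | x | t <;> rcases j with _ | y | t'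
    · rfl
    · simp [f] at hij
    · simp [f] at hij
    · simp [f] at hij
    · simp only [f, Option.some.injEq, Sum.inl.injEq] at hij
      rw [hij]
    · simp [f] at hij
    · simp [f] at hij
    · simp [f] at hij
    · simp only [f, Option.some.injEq, Sum.inr.injEq, Prod.mk.injEq] at hij
      obtain ⟨hx, ha, hs⟩ := hij
      cases t; cases t'
      simp only at hx ha hs
      subst hx ha hs
      rfl
  refine Set.Finite.of_finite_image (f := f) ?_ hf.injOn
  have h1 : (Set.range (fun q : Option (G ⊕ (G × G × G.powerset)) => (match q with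
      | none => none
      | some (Sum.inl x) => some (Sum.inl (x : I))
      | some (Sum.inr t) => some (Sum.inr ((t.1 : I), (t.2.1 : I), (t.2.2 : Finset I))) :
        Option (I ⊕ (I × I × Finset I))))).Finite := Set.finite_range _
  refine h1.subset ?_
  rintro _ ⟨i, hi, rfl⟩
  have hi' : supp i ⊆ G := hi
  rcases i with _ | x | t
  · exact ⟨none, rfl⟩
  · exact ⟨some (Sum.inl ⟨x, supp_l hi'⟩), rfl⟩
  · refine ⟨some (Sum.inr (⟨t.x, supp_x hi'⟩, ⟨t.a, supp_a hi'⟩, ⟨t.s, ?_⟩)), rfl⟩
    exact Finset.mem_powerset.mpr (t.hs.trans (supp_F hi'))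

theorem Sys.rank (S : Sys P) : ∃ r : Idx P → ℕ, Set.InjOn r S.D ∧
    ∀ k : ℕ, (∃ i₀ ∈ S.D, ∀ i ∈ S.D, r i < k ↔ S.key i < S.key i₀) ∨ (∀ i ∈ S.D, r i < k) := by
  refine rank_fun S.D S.key S.key_inj.injOn fun i _ => ?_
  refine (idx_finite (P := P) (S.G (S.st i))).subset ?_
  rintro j ⟨hj, hji⟩
  refine (Sys.st_le_iff hj).mp ?_
  rw [Sys.key_lt] at hji
  rcases hji with h | h
  · exact h.le
  · exact h.1.le

theorem exists_sys (P : Pack I) (C : Set (Idx P)) (hC : C.Countable) :
    ∃ S : Sys P, C ⊆ S.D := by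
  obtain ⟨G, k, hmono, hcov, hgood⟩ := good_seq P.rho ⟨P.sub.ha, P.sub.hb⟩ P.fin
    (⋃ i ∈ C, (supp i : Set I)) (hC.biUnion fun i _ => (supp i).countable_toSet)
  refine ⟨⟨G, hmono, fun m => clo_of_good (hgood m)⟩, fun i hi => ?_⟩
  have h1 : ∀ u ∈ supp i, ∃ m, u ∈ G m := fun u hu => hcov u (Set.mem_biUnion hi hu)
  choose! m hm using h1
  refine ⟨(supp i).sup m, fun u hu => hmono (Finset.le_sup (f := m) hu) (hm u hu)⟩

variable {s : Finset I}

open Classical in
theorem R_exists (S : Sys P) (m₀ : ℕ) :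
    ∃ R : ((s → Bool) → ℝ) →ₗ[ℝ] ((s → Bool) → ℝ),
      (∀ h, ex (fun w => |R h w|) ≤ ex (fun w => |h w|)) ∧
      ∀ i : Idx P, supp i ⊆ s → i ∈ S.D →
        R (eV s i) = if S.st i < m₀ then eV s i else fun _ => 0 := by
  rcases m₀ with _ | m
  · refine ⟨0, ?_, ?_⟩
    · intro h
      have h1 : ex (fun w => |(0 : ((s → Bool) → ℝ) →ₗ[ℝ] ((s → Bool) → ℝ)) h w|) = 0 := by
        simp only [LinearMap.zero_apply, Pi.zero_apply, abs_zero]
        exact ex_const 0
      rw [h1]
      exact ex_nonneg fun w => abs_nonneg _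
    · intro i _ _
      rw [if_neg (Nat.not_lt_zero _)]
      rfl
  · refine ⟨avL (GV s (S.G m)), fun h => ex_abs_av _ h, ?_⟩
    intro i hi hiD
    change av (GV s (S.G m)) (eV s i) = _
    rw [av_clo (S.clo m) hi]
    congr 1
    rw [Nat.lt_succ_iff, Sys.st_le_iff hiD]

open Classical in
theorem T_exists (S : Sys P) {i₀ : Idx P} (h0 : supp i₀ ⊆ s) :
    ∃ T : ((s → Bool) → ℝ) →ₗ[ℝ] ((s → Bool) → ℝ),
      (∀ h, ex (fun w => |T h w|) ≤ 7 * ex (fun w => |h w|)) ∧
      ∀ i : Idx P, supp i ⊆ s → i ∈ S.D →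
        T (eV s i) = if S.key i < S.key i₀ then eV s i else fun _ => 0 := by
  obtain ⟨Q, hQ1, hQ2⟩ := Q_exists (S.clo (S.st i₀)) h0
  obtain ⟨R, hR1, hR2⟩ := R_exists (s := s) S (S.st i₀)
  refine ⟨R + Q ∘ₗ (avL (GV s (S.G (S.st i₀))) - R), ?_, ?_⟩
  · intro h
    have h1 : ex (fun w => |R h w|) ≤ ex (fun w => |h w|) := hR1 h
    have h2 : ex (fun w => |Q ((avL (GV s (S.G (S.st i₀))) - R) h) w|)
        ≤ 3 * ex (fun w => |(avL (GV s (S.G (S.st i₀))) - R) h w|) := hQ1 _
    have h3 : ex (fun w => |av (GV s (S.G (S.st i₀))) h w|) ≤ ex (fun w => |h w|) :=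
      ex_abs_av (GV s (S.G (S.st i₀))) h
    have h4 : ex (fun w => |(avL (GV s (S.G (S.st i₀))) - R) h w|)
        ≤ ex (fun w => |av (GV s (S.G (S.st i₀))) h w|) + ex (fun w => |R h w|) := by
      rw [← ex_add]
      exact ex_mono fun w => abs_sub _ _
    have h5 : ex (fun w => |(R + Q ∘ₗ (avL (GV s (S.G (S.st i₀))) - R)) h w|)
        ≤ ex (fun w => |R h w|)
          + ex (fun w => |Q ((avL (GV s (S.G (S.st i₀))) - R) h) w|) := by
      rw [← ex_add]
      exact ex_mono fun w => abs_add_le _ _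
    linarith
  · intro i hi hiD
    have e1 : (avL (GV s (S.G (S.st i₀))) - R) (eV s i)
        = (if supp i ⊆ S.G (S.st i₀) then eV s i else fun _ => 0)
          - (if S.st i < S.st i₀ then eV s i else fun _ => 0) := by
      rw [LinearMap.sub_apply, hR2 i hi hiD]
      change av (GV s (S.G (S.st i₀))) (eV s i) - _ = _
      rw [av_clo (S.clo _) hi]
    have e2 : (R + Q ∘ₗ (avL (GV s (S.G (S.st i₀))) - R)) (eV s i)
        = (if S.st i < S.st i₀ then eV s i else fun _ => 0)
          + Q ((avL (GV s (S.G (S.st i₀))) - R) (eV s i)) := by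
      rw [LinearMap.add_apply, hR2 i hi hiD]
      rfl
    have hz : (fun _ : s → Bool => (0 : ℝ)) = 0 := rfl
    rw [e2, e1]
    rcases lt_trichotomy (S.st i) (S.st i₀) with h | h | h
    · have h1 : supp i ⊆ S.G (S.st i₀) := (Sys.st_le_iff hiD).mp h.le
      rw [if_pos h, if_pos h1, if_pos (Sys.key_lt.mpr (Or.inl h)), sub_self, map_zero, add_zero]
    · have h1 : supp i ⊆ S.G (S.st i₀) := (Sys.st_le_iff hiD).mp h.le
      have h2 : ¬ S.st i < S.st i₀ := h.not_lt
      rw [if_neg h2, if_pos h1, hz, sub_zero, zero_add, hQ2 i hi h1]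
      congr 1
      rw [Sys.key_lt]
      apply propext
      constructor
      · exact fun h3 => Or.inr ⟨h, h3⟩
      · rintro (h3 | h3)
        · exact absurd h3 h2
        · exact h3.2
    · have h1 : ¬ supp i ⊆ S.G (S.st i₀) := fun h2 => by
        have h3 := (Sys.st_le_iff hiD).mpr h2
        omega
      have h2 : ¬ S.st i < S.st i₀ := by omega
      rw [if_neg h1, if_neg h2, if_neg, hz, sub_zero, map_zero, add_zero]
      rw [Sys.key_lt]
      rintro (h3 | h3)
      · exact h2 h3
      · exact absurd h3.1 h.ne'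

open Classical in
theorem piece_init {Ω : Type*} [MeasurableSpace Ω] {μ : Measure Ω} [IsFiniteMeasure μ]
    {b : I → Ω → Bool} {E : Set Ω} (hE : MeasurableSet E) (hf : H60Mah.Fair μ E b) (S : Sys P)
    (i₀ : Idx P) (d : Finset (Idx P)) (hd : ∀ i ∈ d, i ∈ S.D) (al : Idx P → ℝ) :
    ∫ w in E, |∑ i ∈ d, (if S.key i < S.key i₀ then al i else 0) * e i (fun k => b k w)| ∂μ
      ≤ 7 * ∫ w in E, |∑ i ∈ d, al i * e i (fun k => b k w)| ∂μ := by
  set s : Finset I := (insert i₀ d).biUnion supp with hs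
  have hds : ∀ i ∈ d, supp i ⊆ s := fun i hi =>
    Finset.subset_biUnion_of_mem supp (Finset.mem_insert_of_mem hi)
  have h0s : supp i₀ ⊆ s := Finset.subset_biUnion_of_mem supp (Finset.mem_insert_self _ _)
  have h1 : ∀ ga : Idx P → ℝ, ∫ w in E, |∑ i ∈ d, ga i * e i (fun k => b k w)| ∂μ
      = μ.real E * ex (fun w => |∑ i ∈ d, ga i * eV s i w|) := by
    intro ga
    rw [← H60Mah.piece_integral hE hf s (fun w => |∑ i ∈ d, ga i * eV s i w|)]
    refine integral_congr_ae (Filter.Eventually.of_forall fun w => ?_)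
    have h3 : s.restrict (fun k => b k w) = fun i : s => b i w := rfl
    simp only
    congr 1
    refine Finset.sum_congr rfl fun i hi => ?_
    rw [← h3, eV_restrict (hds i hi)]
  rw [h1, h1]
  obtain ⟨T, hT1, hT2⟩ := T_exists S h0s
  have h2 := hT1 (∑ i ∈ d, al i • eV s i)
  have h3 : T (∑ i ∈ d, al i • eV s i)
      = fun w => ∑ i ∈ d, (if S.key i < S.key i₀ then al i else 0) * eV s i w := by
    rw [map_sum]
    funext w
    rw [Finset.sum_apply]
    refine Finset.sum_congr rfl fun i hi => ?_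
    rw [map_smul, hT2 i (hds i hi) (hd i hi), Pi.smul_apply, smul_eq_mul]
    split_ifs
    · rfl
    · ring
  have h4 : (fun w => |(∑ i ∈ d, al i • eV s i) w|) = fun w => |∑ i ∈ d, al i * eV s i w| := by
    funext w
    rw [Finset.sum_apply]
    rfl
  rw [h3, h4] at h2
  calc μ.real E * ex (fun w => |∑ i ∈ d, (if S.key i < S.key i₀ then al i else 0) * eV s i w|)
      ≤ μ.real E * (7 * ex (fun w => |∑ i ∈ d, al i * eV s i w|)) :=
        mul_le_mul_of_nonneg_left h2 measureReal_nonneg
    _ = _ := by ring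

end H60ER
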