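import Pool.Agent.Helper60.Unc.Avg
import Pool.Agent.Helper60.Unc.Comb

/-!
Partial sum operators for the mean value norm.
-/

namespace H60ER

open Finset H60Unc

variable {V : Type*} [LinearOrder V] [Fintype V]

theorem ex_abs_av (A : Finset V) (h : (V → Bool) → ℝ) :
    ex (fun w => |av A h w|) ≤ ex (fun w => |h w|) := by
  calc ex (fun w => |av A h w|) ≤ ex (av A fun w => |h w|) := ex_mono fun w => abs_av_le A h w
    _ = ex (fun w => |h w|) := ex_av A _

/-- the operator of the indices before a given one, inside a finite set of coordinates -/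
noncomputable def Qop (rho : V → V → ℕ) (G : Finset V) (c a : V) (m : (V → Bool) → ℝ)
    (h : (V → Bool) → ℝ) (w : V → Bool) : ℝ :=
  av (G.filter (· < c)) h w + chi c w * av (FF rho c a) (fun w => chi c w * h w) w
    + chi c w * chi a w * m w * av (FF rho c a) (fun w => chi a w * (chi c w * h w)) w

variable {rho : V → V → ℕ} {G : Finset V} {c a : V} {m : (V → Bool) → ℝ}

theorem Qop_bound (hm : ∀ w, |m w| ≤ 1) (h : (V → Bool) → ℝ) :
    ex (fun w => |Qop rho G c a m h w|) ≤ 3 * ex (fun w => |h w|) := by
  have h1 := ex_abs_av (G.filter (· < c)) h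
  have h2 := ex_abs_av (FF rho c a) (fun w => chi c w * h w)
  have h3 := ex_abs_av (FF rho c a) (fun w => chi a w * (chi c w * h w))
  have e2 : (fun w => |chi c w * h w|) = fun w => |h w| := by
    funext w; rw [abs_mul, abs_chi, one_mul]
  have e3 : (fun w => |chi a w * (chi c w * h w)|) = fun w => |h w| := by
    funext w; rw [abs_mul, abs_mul, abs_chi, abs_chi, one_mul, one_mul]
  rw [e2] at h2
  rw [e3] at h3
  calc ex (fun w => |Qop rho G c a m h w|)
      ≤ ex (fun w => |av (G.filter (· < c)) h w| + (|av (FF rho c a) (fun w => chi c w * h w) w|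
        + |av (FF rho c a) (fun w => chi a w * (chi c w * h w)) w|)) := by
        refine ex_mono fun w => ?_
        unfold Qop
        refine (abs_add_le _ _).trans ?_
        have i1 := abs_add_le (av (G.filter (· < c)) h w)
          (chi c w * av (FF rho c a) (fun w => chi c w * h w) w)
        have i2 : |chi c w * av (FF rho c a) (fun w => chi c w * h w) w|
            = |av (FF rho c a) (fun w => chi c w * h w) w| := by
          rw [abs_mul, abs_chi, one_mul]
        have i3 : |chi c w * chi a w * m w * av (FF rho c a)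
            (fun w => chi a w * (chi c w * h w)) w|
            ≤ |av (FF rho c a) (fun w => chi a w * (chi c w * h w)) w| := by
          rw [abs_mul, abs_mul, abs_mul, abs_chi, abs_chi, one_mul, one_mul]
          exact mul_le_of_le_one_left (abs_nonneg _) (hm w)
        rw [i2] at i1
        linarith
    _ = ex (fun w => |av (G.filter (· < c)) h w|)
        + (ex (fun w => |av (FF rho c a) (fun w => chi c w * h w) w|)
          + ex (fun w => |av (FF rho c a) (fun w => chi a w * (chi c w * h w)) w|)) := by
        rw [ex_add, ex_add]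
    _ ≤ 3 * ex (fun w => |h w|) := by linarith

theorem ind_of_dep {h : (V → Bool) → ℝ} {A : Finset V} (hd : Dep h A) {v : V} (hv : v ∉ A) :
    Ind h v := hd.ind hv

theorem Ind.one (v : V) : Ind (fun _ : V → Bool => (1 : ℝ)) v := fun _ _ => rfl

theorem Qop_one (hac : a < c) : Qop rho G c a m (fun _ => 1) = fun _ => 1 := by
  funext w
  unfold Qop
  have h1 : av (G.filter (· < c)) (fun _ => (1 : ℝ)) = fun _ => 1 := av_of_dep (Dep.const 1 _)
  have hc : c ∉ FF rho c a := fun h => lt_irrefl _ (mem_FF.mp h).1
  have h2 : av (FF rho c a) (fun w => chi c w * 1) = fun _ => 0 :=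
    av_chi_mul (Ind.one c) hc
  have h3 : av (FF rho c a) (fun w => chi a w * (chi c w * 1)) = fun _ => 0 :=
    av_chi_mul ((chi_ind hac.ne').mul (Ind.one a)) not_mem_FF
  rw [h1, h2, h3]
  ring

/-- functions led by a smaller coordinate are kept -/
theorem Qop_lt (hac : a < c) {c' : V} {h' : (V → Bool) → ℝ} (hc' : c' < c) (hG : c' ∈ G)
    (hd : Dep h' (G.filter (· < c'))) :
    Qop rho G c a m (fun w => chi c' w * h' w) = fun w => chi c' w * h' w := by
  funext w
  unfold Qop
  have hsub : G.filter (· < c') ⊆ G.filter (· < c) := fun u hu => by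
    rw [Finset.mem_filter] at hu ⊢
    exact ⟨hu.1, hu.2.trans hc'⟩
  have hmem : c' ∈ G.filter (· < c) := by
    rw [Finset.mem_filter]; exact ⟨hG, hc'⟩
  have hdep : Dep (fun w => chi c' w * h' w) (G.filter (· < c)) :=
    (chi_dep hmem).mul (hd.mono hsub)
  have hic : Ind (fun w => chi c' w * h' w) c :=
    hdep.ind (by rw [Finset.mem_filter]; exact fun h => lt_irrefl _ h.2)
  have hc : c ∉ FF rho c a := fun h => lt_irrefl _ (mem_FF.mp h).1
  have h2 : av (FF rho c a) (fun w => chi c w * (chi c' w * h' w)) = fun _ => 0 :=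
    av_chi_mul hic hc
  have h3 : av (FF rho c a) (fun w => chi a w * (chi c w * (chi c' w * h' w))) = fun _ => 0 := by
    have : (fun w => chi a w * (chi c w * (chi c' w * h' w)))
        = fun w => chi c w * (chi a w * (chi c' w * h' w)) := by funext w; ring
    rw [this]
    exact av_chi_mul ((chi_ind hac.ne).mul hic) hc
  rw [av_of_dep hdep, h2, h3]
  ring

/-- functions led by a larger coordinate are killed -/
theorem Qop_gt (hac : a < c) {c' : V} {h' : (V → Bool) → ℝ} (hc' : c < c')
    (hd : Ind h' c') :
    Qop rho G c a m (fun w => chi c' w * h' w) = fun _ => 0 := by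
  funext w
  unfold Qop
  have hn : c' ∉ FF rho c a := fun h => lt_asymm hc' (mem_FF.mp h).1
  have h1 : av (G.filter (· < c)) (fun w => chi c' w * h' w) = fun _ => 0 :=
    av_chi_mul hd (by rw [Finset.mem_filter]; exact fun h => lt_asymm hc' h.2)
  have h2 : av (FF rho c a) (fun w => chi c w * (chi c' w * h' w)) = fun _ => 0 := by
    have : (fun w => chi c w * (chi c' w * h' w)) = fun w => chi c' w * (chi c w * h' w) := by
      funext w; ring
    rw [this]
    exact av_chi_mul ((chi_ind hc'.ne).mul hd) hn
  have h3 : av (FF rho c a) (fun w => chi a w * (chi c w * (chi c' w * h' w))) = fun _ => 0 := by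
    have : (fun w => chi a w * (chi c w * (chi c' w * h' w)))
        = fun w => chi c' w * (chi a w * (chi c w * h' w)) := by funext w; ring
    rw [this]
    exact av_chi_mul ((chi_ind (hac.trans hc').ne).mul ((chi_ind hc'.ne).mul hd)) hn
  rw [h1, h2, h3]
  ring

/-- the reduction for the same leading coordinate -/
theorem Qop_same {h' : (V → Bool) → ℝ} (hd : Ind h' c) :
    Qop rho G c a m (fun w => chi c w * h' w) = fun w => chi c w * av (FF rho c a) h' w
      + chi c w * chi a w * m w * av (FF rho c a) (fun w => chi a w * h' w) w := by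
  funext w
  unfold Qop
  have h1 : av (G.filter (· < c)) (fun w => chi c w * h' w) = fun _ => 0 :=
    av_chi_mul hd (by rw [Finset.mem_filter]; exact fun h => lt_irrefl _ h.2)
  have e2 : (fun w => chi c w * (chi c w * h' w)) = h' := by
    funext w
    linear_combination (h' w) * chi_sq c w
  have e3 : (fun w => chi a w * (chi c w * (chi c w * h' w))) = fun w => chi a w * h' w := by
    funext w
    linear_combination (chi a w * h' w) * chi_sq c w
  rw [h1, e2, e3]
  ring

theorem Qop_self (hac : a < c) :
    Qop rho G c a m (fun w => chi c w * (fun _ => (1 : ℝ)) w) = fun w => chi c w * 1 := by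
  rw [Qop_same (Ind.one c)]
  funext w
  have h3 : av (FF rho c a) (fun w => chi a w * (fun _ => (1 : ℝ)) w) = fun _ => 0 :=
    av_chi_mul (Ind.one a) not_mem_FF
  rw [h3, av_of_dep (Dep.const 1 _)]
  ring

/-- the second coordinate comes before -/
theorem Qop_before (hac : a < c) {a' : V} {g : (V → Bool) → ℝ} (ha' : lt2 rho c a' a)
    (hac' : a' < c) (hg : Dep g (FF rho c a')) :
    Qop rho G c a m (fun w => chi c w * (chi a' w * g w))
      = fun w => chi c w * (chi a' w * g w) := by
  have hd : Dep (fun w => chi a' w * g w) (FF rho c a) :=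
    (chi_dep (mem_FF.mpr ⟨hac', ha'⟩)).mul (hg.mono (FF_subset ha'))
  have hc : c ∉ FF rho c a := fun h => lt_irrefl _ (mem_FF.mp h).1
  rw [Qop_same (hd.ind hc)]
  funext w
  have h3 : av (FF rho c a) (fun w => chi a w * (chi a' w * g w)) = fun _ => 0 :=
    av_chi_mul (hd.ind not_mem_FF) not_mem_FF
  rw [h3, av_of_dep hd]
  ring

/-- the second coordinate is the same -/
theorem Qop_eq (hac : a < c) {g : (V → Bool) → ℝ} (hg : Dep g (FF rho c a)) :
    Qop rho G c a m (fun w => chi c w * (chi a w * g w))
      = fun w => m w * (chi c w * (chi a w * g w)) := by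
  have hc : c ∉ FF rho c a := fun h => lt_irrefl _ (mem_FF.mp h).1
  rw [Qop_same ((chi_ind hac.ne).mul (hg.ind hc))]
  funext w
  have h2 : av (FF rho c a) (fun w => chi a w * g w) = fun _ => 0 :=
    av_chi_mul (hg.ind not_mem_FF) not_mem_FF
  have e3 : (fun w => chi a w * (chi a w * g w)) = g := by
    funext w
    linear_combination (g w) * chi_sq a w
  rw [e3, h2, av_of_dep hg]
  ring

/-- the second coordinate comes after -/
theorem Qop_after (hac : a < c) {a' : V} {g : (V → Bool) → ℝ} (ha' : lt2 rho c a a')
    (hac' : a' < c) (hg : Dep g (FF rho c a')) :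
    Qop rho G c a m (fun w => chi c w * (chi a' w * g w)) = fun _ => 0 := by
  have hc' : c ∉ FF rho c a' := fun h => lt_irrefl _ (mem_FF.mp h).1
  have hn : a' ∉ FF rho c a := fun h => lt2_asymm ha' (mem_FF.mp h).2
  have hne : a ≠ a' := fun h => lt2_irrefl _ _ (h ▸ ha')
  rw [Qop_same ((chi_ind hac'.ne).mul (hg.ind hc'))]
  funext w
  have h2 : av (FF rho c a) (fun w => chi a' w * g w) = fun _ => 0 :=
    av_chi_mul (hg.ind not_mem_FF) hn
  have h3 : av (FF rho c a) (fun w => chi a w * (chi a' w * g w)) = fun _ => 0 := by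
    have : (fun w => chi a w * (chi a' w * g w)) = fun w => chi a' w * (chi a w * g w) := by
      funext w; ring
    rw [this]
    exact av_chi_mul ((chi_ind hne).mul (hg.ind not_mem_FF)) hn
  rw [h2, h3]
  ring

/-- averages over a set of coordinates which misses the leading one -/
theorem av_kill {A : Finset V} {c' : V} {h' : (V → Bool) → ℝ} (hc : c' ∉ A) (hd : Ind h' c') :
    av A (fun w => chi c' w * h' w) = fun _ => 0 := av_chi_mul hd hc

end H60ER
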