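import Pool.Agent.Helper60.Unc.Span
import Pool.Agent.Helper60.ER.Part

/-!
The functions of the system on a finite set of coordinates, averages over closed sets of
coordinates, and the operator of the indices before a given one.
-/

namespace H60ER

open Finset H60Unc

variable {I : Type*} [LinearOrder I] {P : Pack I} (s : Finset I)

open Classical in
/-- the functions of the system on the coordinates of `s` -/
noncomputable def eV : Idx P → (s → Bool) → ℝ
  | none, _ => 1
  | some (Sum.inl x), w => if h : x ∈ s then chi (⟨x, h⟩ : s) w else 0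
  | some (Sum.inr t), w => if h : t.x ∈ s ∧ t.a ∈ s then
      chi (⟨t.x, h.1⟩ : s) w * (chi (⟨t.a, h.2⟩ : s) w * indV s t w) else 0

variable {s}

theorem eV_none : eV s (none : Idx P) = fun _ => 1 := rfl

theorem eV_inl {x : I} (hx : x ∈ s) :
    eV s (some (Sum.inl x) : Idx P) = fun w => chi (⟨x, hx⟩ : s) w * (fun _ => (1 : ℝ)) w := by
  funext w
  simp [eV, hx]

theorem eV_inr {t : Tri P} (hx : t.x ∈ s) (ha : t.a ∈ s) :
    eV s (some (Sum.inr t) : Idx P)
      = fun w => chi (⟨t.x, hx⟩ : s) w * (chi (⟨t.a, ha⟩ : s) w * indV s t w) := by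
  funext w
  simp [eV, hx, ha]

theorem supp_x {t : Tri P} {s : Finset I} (h : supp (some (Sum.inr t) : Idx P) ⊆ s) : t.x ∈ s :=
  h (by simp [supp])

theorem supp_a {t : Tri P} {s : Finset I} (h : supp (some (Sum.inr t) : Idx P) ⊆ s) : t.a ∈ s :=
  h (by simp [supp])

theorem supp_F {t : Tri P} {s : Finset I} (h : supp (some (Sum.inr t) : Idx P) ⊆ s) :
    P.FI t.x t.a ⊆ s := fun u hu => h (by simp [supp, hu])

theorem supp_l {x : I} {s : Finset I} (h : supp (some (Sum.inl x) : Idx P) ⊆ s) : x ∈ s :=
  h (by simp [supp])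

theorem eV_restrict {i : Idx P} (hi : supp i ⊆ s) (w : I → Bool) :
    eV s i (s.restrict w) = e i w := by
  rcases i with _ | x | t
  · rfl
  · rw [eV_inl (supp_l hi)]
    have h1 : chi (⟨x, supp_l hi⟩ : s) (s.restrict w) = chi x w := rfl
    simp only [e, h1, mul_one]
  · rw [eV_inr (supp_x hi) (supp_a hi)]
    simp only [e]
    rw [indV_eq s t (supp_F hi)]
    have h1 : chi (⟨t.x, supp_x hi⟩ : s) (s.restrict w) = chi t.x w := rfl
    have h2 : chi (⟨t.a, supp_a hi⟩ : s) (s.restrict w) = chi t.a w := rfl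
    rw [h1, h2]
    ring

theorem indV_dep {t : Tri P} {x a : s} (hx : (x : I) = t.x) (ha : (a : I) = t.a) :
    Dep (indV s t) (FF (rhoV P s) x a) := by
  intro w w' hw
  unfold indV
  congr 1
  apply propext
  constructor
  · intro h u hu
    rw [← h u hu, hw u]
    rw [mem_FF_rhoV, hx, ha]; exact hu
  · intro h u hu
    rw [← h u hu, hw u]
    rw [mem_FF_rhoV, hx, ha]; exact hu

/-- a set of coordinates which is closed for the system -/
def Clo (P : Pack I) (G : Finset I) : Prop := ∀ x ∈ G, ∀ a ∈ G, a < x → P.FI x a ⊆ G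

theorem clo_of_good {G : Finset I} {k : ℕ} (h : ∀ x ∈ G, ∀ a < x, (a ∈ G ↔ P.rho a x ≤ k)) :
    Clo P G := by
  intro x hx a ha hax u hu
  rw [Pack.mem_FI] at hu
  rw [h x hx u hu.1]
  have h1 := (h x hx a hax).mp ha
  rcases hu.2 with h2 | h2
  · exact h2.le.trans h1
  · exact h2.1.le.trans h1

open Classical in
/-- the part of a set of coordinates in `s` -/
noncomputable def GV (s G : Finset I) : Finset s := Finset.univ.filter fun v => (v : I) ∈ G

theorem mem_GV {G : Finset I} {v : s} : v ∈ GV s G ↔ (v : I) ∈ G := by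
  simp [GV]

theorem FF_subset_GV {G : Finset I} {x a : s} (h : P.FI x a ⊆ G) :
    FF (rhoV P s) x a ⊆ GV s G := by
  intro u hu
  rw [mem_FF_rhoV] at hu
  rw [mem_GV]
  exact h hu

open Classical in
/-- averaging over a closed set of coordinates keeps or kills the functions of the system -/
theorem av_clo {G : Finset I} (hG : Clo P G) {i : Idx P} (hi : supp i ⊆ s) :
    av (GV s G) (eV s i) = if supp i ⊆ G then eV s i else fun _ => 0 := by
  rcases i with _ | x | t
  · rw [if_pos (by simp [supp])]
    exact av_of_dep (Dep.const 1 _)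
  · have hx := supp_l hi
    by_cases hxG : x ∈ G
    · rw [if_pos (by simpa [supp] using hxG), eV_inl hx]
      refine av_of_dep (Dep.mul (chi_dep (mem_GV.mpr hxG)) (Dep.const 1 _))
    · rw [if_neg (fun h => hxG (supp_l h)), eV_inl hx]
      exact av_chi_mul (Ind.one _) (fun h => hxG (mem_GV.mp h))
  · have hx := supp_x hi
    have ha := supp_a hi
    have hdep : Dep (indV s t) (FF (rhoV P s) (⟨t.x, hx⟩ : s) (⟨t.a, ha⟩ : s)) :=
      indV_dep rfl rfl
    have hne : (⟨t.a, ha⟩ : s) ≠ ⟨t.x, hx⟩ := fun h => t.hax.ne (congrArg Subtype.val h)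
    have hxn : (⟨t.x, hx⟩ : s) ∉ FF (rhoV P s) (⟨t.x, hx⟩ : s) (⟨t.a, ha⟩ : s) :=
      fun h => lt_irrefl _ (mem_FF.mp h).1
    rw [eV_inr hx ha]
    by_cases hxG : t.x ∈ G
    · by_cases haG : t.a ∈ G
      · have hF := hG _ hxG _ haG t.hax
        rw [if_pos]
        · refine av_of_dep (Dep.mul (chi_dep (mem_GV.mpr hxG))
            (Dep.mul (chi_dep (mem_GV.mpr haG)) (hdep.mono (FF_subset_GV hF))))
        · intro u hu
          simp only [supp, Finset.mem_insert] at hu
          rcases hu with hu | hu | hu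
          · rw [hu]; exact hxG
          · rw [hu]; exact haG
          · exact hF hu
      · rw [if_neg (fun h => haG (supp_a h))]
        have e1 : (fun w => chi (⟨t.x, hx⟩ : s) w * (chi (⟨t.a, ha⟩ : s) w * indV s t w))
            = fun w => chi (⟨t.a, ha⟩ : s) w * (chi (⟨t.x, hx⟩ : s) w * indV s t w) := by
          funext w; ring
        rw [e1]
        exact av_chi_mul ((chi_ind hne.symm).mul (hdep.ind not_mem_FF))
          (fun h => haG (mem_GV.mp h))
    · rw [if_neg (fun h => hxG (supp_x h))]
      exact av_chi_mul ((chi_ind hne).mul (hdep.ind hxn)) (fun h => hxG (mem_GV.mp h))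

/-- the lexicographic key inside a closed set -/
abbrev KK2 (I : Type*) := WithBot (I ×ₗ WithBot ((ℕ ×ₗ I) ×ₗ Colex (Finset I)))

/-- the key -/
def kappa : Idx P → KK2 I
  | none => ⊥
  | some (Sum.inl x) => ((toLex (x, ⊥) : I ×ₗ WithBot ((ℕ ×ₗ I) ×ₗ Colex (Finset I))) : KK2 I)
  | some (Sum.inr t) => ((toLex (t.x, ((toLex (toLex (P.rho t.a t.x, t.a), toColex t.s) :
      (ℕ ×ₗ I) ×ₗ Colex (Finset I)) : WithBot ((ℕ ×ₗ I) ×ₗ Colex (Finset I)))) :
        I ×ₗ WithBot ((ℕ ×ₗ I) ×ₗ Colex (Finset I))) : KK2 I)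

section lin

variable {V : Type*} [LinearOrder V] [Fintype V]

/-- averages as linear maps -/
noncomputable def avL (A : Finset V) : ((V → Bool) → ℝ) →ₗ[ℝ] ((V → Bool) → ℝ) where
  toFun h := av A h
  map_add' f g := av_add A f g
  map_smul' c f := by
    funext w
    simp only [av, Pi.smul_apply, smul_eq_mul, RingHom.id_apply]
    exact ex_smul c _

/-- multiplication as a linear map -/
noncomputable def mulL (g : (V → Bool) → ℝ) : ((V → Bool) → ℝ) →ₗ[ℝ] ((V → Bool) → ℝ) where
  toFun h := fun w => g w * h w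
  map_add' f g := by funext w; simp only [Pi.add_apply]; ring
  map_smul' c f := by
    funext w; simp only [Pi.smul_apply, smul_eq_mul, RingHom.id_apply]; ring

/-- the operator as a linear map -/
noncomputable def QL (rho : V → V → ℕ) (G : Finset V) (c a : V) (m : (V → Bool) → ℝ) :
    ((V → Bool) → ℝ) →ₗ[ℝ] ((V → Bool) → ℝ) :=
  avL (G.filter (· < c)) + mulL (chi c) ∘ₗ avL (FF rho c a) ∘ₗ mulL (chi c)
    + mulL (fun w => chi c w * chi a w * m w) ∘ₗ avL (FF rho c a) ∘ₗ mulL (chi a) ∘ₗ mulL (chi c)

theorem QL_eq (rho : V → V → ℕ) (G : Finset V) (c a : V) (m : (V → Bool) → ℝ)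
    (h : (V → Bool) → ℝ) : QL rho G c a m h = Qop rho G c a m h := rfl

end lin

theorem dep_lt {G : Finset I} (hG : Clo P G) {t : Tri P} (hx : t.x ∈ s) (ha : t.a ∈ s)
    (hxG : t.x ∈ G) (haG : t.a ∈ G) :
    Dep (fun w => chi (⟨t.a, ha⟩ : s) w * indV s t w)
      ((GV s G).filter (· < (⟨t.x, hx⟩ : s))) := by
  have hF := hG _ hxG _ haG t.hax
  have hdep : Dep (indV s t) (FF (rhoV P s) (⟨t.x, hx⟩ : s) (⟨t.a, ha⟩ : s)) :=
    indV_dep rfl rfl
  have hsub : FF (rhoV P s) (⟨t.x, hx⟩ : s) (⟨t.a, ha⟩ : s) ⊆ GV s G :=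
    FF_subset_GV (x := ⟨t.x, hx⟩) (a := ⟨t.a, ha⟩) hF
  refine Dep.mul (chi_dep ?_) (hdep.mono ?_)
  · rw [Finset.mem_filter]
    exact ⟨mem_GV.mpr haG, t.hax⟩
  · intro u hu
    rw [Finset.mem_filter]
    exact ⟨hsub hu, (mem_FF.mp hu).1⟩

theorem ind_self {t : Tri P} (hx : t.x ∈ s) (ha : t.a ∈ s) :
    Ind (fun w => chi (⟨t.a, ha⟩ : s) w * indV s t w) (⟨t.x, hx⟩ : s) := by
  have hdep : Dep (indV s t) (FF (rhoV P s) (⟨t.x, hx⟩ : s) (⟨t.a, ha⟩ : s)) :=
    indV_dep rfl rfl
  have hne : (⟨t.a, ha⟩ : s) ≠ ⟨t.x, hx⟩ := fun h => t.hax.ne (congrArg Subtype.val h)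
  have hxn : (⟨t.x, hx⟩ : s) ∉ FF (rhoV P s) (⟨t.x, hx⟩ : s) (⟨t.a, ha⟩ : s) :=
    fun h => lt_irrefl _ (mem_FF.mp h).1
  exact (chi_ind hne).mul (hdep.ind hxn)

open Classical in
/-- the pattern of a point on the set of a pair -/
noncomputable def pat (s : Finset I) (t : Tri P) (w : s → Bool) : Finset I :=
  (P.FI t.x t.a).filter fun u => ∃ h : u ∈ s, w ⟨u, h⟩ = true

theorem pat_of_indV {t t' : Tri P} (hx : t'.x = t.x) (ha : t'.a = t.a)
    (hF : P.FI t.x t.a ⊆ s) {w : s → Bool} (h : indV s t' w ≠ 0) : pat s t w = t'.s := by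
  have h7 : ∀ u : s, (u : I) ∈ P.FI t'.x t'.a → (w u = true ↔ (u : I) ∈ t'.s) := by
    by_contra h8
    apply h
    unfold indV
    rw [if_neg h8]
  rw [hx, ha] at h7
  ext u
  simp only [pat, Finset.mem_filter]
  constructor
  · rintro ⟨h1, h2, h3⟩
    exact (h7 ⟨u, h2⟩ h1).mp h3
  · intro hu
    have h1 := t'.hs hu
    rw [hx, ha] at h1
    exact ⟨h1, hF h1, (h7 ⟨u, hF h1⟩ h1).mpr hu⟩

open Classical in
/-- the operator of the indices before a given one, inside a closed set -/
theorem Q_exists {G : Finset I} (hG : Clo P G) {i₀ : Idx P} (h0 : supp i₀ ⊆ s) :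
    ∃ Q : ((s → Bool) → ℝ) →ₗ[ℝ] ((s → Bool) → ℝ),
      (∀ h, ex (fun w => |Q h w|) ≤ 3 * ex (fun w => |h w|)) ∧
      ∀ i : Idx P, supp i ⊆ s → supp i ⊆ G →
        Q (eV s i) = if kappa i < kappa i₀ then eV s i else fun _ => 0 := by
  rcases i₀ with _ | c | t
  · refine ⟨0, ?_, ?_⟩
    · intro h
      have h1 : ex (fun w => |(0 : ((s → Bool) → ℝ) →ₗ[ℝ] ((s → Bool) → ℝ)) h w|) = 0 := by
        simp only [LinearMap.zero_apply, Pi.zero_apply, abs_zero]
        exact ex_const 0
      rw [h1]
      exact mul_nonneg (by norm_num) (ex_nonneg fun w => abs_nonneg _)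
    · intro i _ _
      rw [if_neg (by simp [kappa])]
      rfl
  · have hc := supp_l h0
    refine ⟨avL ((GV s G).filter (· < (⟨c, hc⟩ : s))), ?_, ?_⟩
    · intro h
      have h1 := ex_abs_av ((GV s G).filter (· < (⟨c, hc⟩ : s))) h
      have h2 : 0 ≤ ex (fun w => |h w|) := ex_nonneg fun w => abs_nonneg _
      have h3 : ex (fun w => |avL ((GV s G).filter (· < (⟨c, hc⟩ : s))) h w|)
        ≤ ex (fun w => |h w|) := h1
      linarith
    · intro i hi hiG
      change av ((GV s G).filter (· < (⟨c, hc⟩ : s))) (eV s i) = _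
      rcases i with _ | x | t
      · rw [if_pos (by simp [kappa])]
        exact av_of_dep (Dep.const 1 _)
      · have hx := supp_l hi
        by_cases hxc : x < c
        · rw [if_pos, eV_inl hx]
          · refine av_of_dep (Dep.mul (chi_dep ?_) (Dep.const 1 _))
            rw [Finset.mem_filter]
            exact ⟨mem_GV.mpr (supp_l hiG), hxc⟩
          · simp only [kappa, WithBot.coe_lt_coe, Prod.Lex.toLex_lt_toLex]
            exact Or.inl hxc
        · rw [if_neg, eV_inl hx]
          · refine av_chi_mul (Ind.one _) ?_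
            rw [Finset.mem_filter]
            exact fun h => hxc h.2
          · simp only [kappa, WithBot.coe_lt_coe, Prod.Lex.toLex_lt_toLex]
            rintro (h | h)
            · exact hxc h
            · exact absurd h.2 (lt_irrefl _)
      · have hx := supp_x hi
        have ha := supp_a hi
        by_cases hxc : t.x < c
        · rw [if_pos, eV_inr hx ha]
          · have h1 := dep_lt hG hx ha (supp_x hiG) (supp_a hiG)
            refine av_of_dep (Dep.mul (chi_dep ?_) (h1.mono ?_))
            · rw [Finset.mem_filter]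
              exact ⟨mem_GV.mpr (supp_x hiG), hxc⟩
            · intro u hu
              rw [Finset.mem_filter] at hu ⊢
              exact ⟨hu.1, lt_trans hu.2 hxc⟩
          · simp only [kappa, WithBot.coe_lt_coe, Prod.Lex.toLex_lt_toLex]
            exact Or.inl hxc
        · rw [if_neg, eV_inr hx ha]
          · refine av_chi_mul (ind_self hx ha) ?_
            rw [Finset.mem_filter]
            exact fun h => hxc h.2
          · simp only [kappa, WithBot.coe_lt_coe, Prod.Lex.toLex_lt_toLex]
            rintro (h | h)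
            · exact hxc h
            · exact absurd h.2 not_lt_bot
  · have hc := supp_x h0
    have ha := supp_a h0
    have hF := supp_F h0
    have hac : (⟨t.a, ha⟩ : s) < ⟨t.x, hc⟩ := t.hax
    let m : (s → Bool) → ℝ := fun w => if toColex (pat s t w) < toColex t.s then 1 else 0
    have hm : ∀ w, |m w| ≤ 1 := by
      intro w
      simp only [m]
      split_ifs <;> simp
    refine ⟨QL (rhoV P s) (GV s G) ⟨t.x, hc⟩ ⟨t.a, ha⟩ m, fun h => Qop_bound hm h, ?_⟩
    intro i hi hiG
    rw [QL_eq]
    rcases i with _ | x | t'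
    · rw [if_pos (by simp [kappa])]
      exact Qop_one hac
    · have hx := supp_l hi
      rw [eV_inl hx]
      rcases lt_trichotomy x t.x with h | h | h
      · rw [if_pos]
        · exact Qop_lt hac (c' := ⟨x, hx⟩) h (mem_GV.mpr (supp_l hiG)) (Dep.const 1 _)
        · simp only [kappa, WithBot.coe_lt_coe, Prod.Lex.toLex_lt_toLex]
          exact Or.inl h
      · subst h
        rw [if_pos]
        · have := Qop_self (rho := rhoV P s) (G := GV s G) (m := m) hac
          exact this
        · simp only [kappa, WithBot.coe_lt_coe, Prod.Lex.toLex_lt_toLex]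
          exact Or.inr ⟨trivial, WithBot.bot_lt_coe _⟩
      · rw [if_neg]
        · exact Qop_gt hac (c' := ⟨x, hx⟩) h (Ind.one _)
        · simp only [kappa, WithBot.coe_lt_coe, Prod.Lex.toLex_lt_toLex]
          rintro (h1 | h1)
          · exact lt_asymm h h1
          · exact h.ne h1.1.symm
    · have hx := supp_x hi
      have ha' := supp_a hi
      rw [eV_inr hx ha']
      rcases lt_trichotomy t'.x t.x with h | h | h
      · rw [if_pos]
        · exact Qop_lt hac (c' := ⟨t'.x, hx⟩) h (mem_GV.mpr (supp_x hiG))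
            (dep_lt hG hx ha' (supp_x hiG) (supp_a hiG))
        · simp only [kappa, WithBot.coe_lt_coe, Prod.Lex.toLex_lt_toLex]
          exact Or.inl h
      · have hxx : (⟨t'.x, hx⟩ : s) = ⟨t.x, hc⟩ := Subtype.ext h
        have hac' : (⟨t'.a, ha'⟩ : s) < ⟨t.x, hc⟩ := by
          rw [← hxx]; exact t'.hax
        have hdep : Dep (indV s t') (FF (rhoV P s) (⟨t.x, hc⟩ : s) (⟨t'.a, ha'⟩ : s)) :=
          indV_dep h.symm rfl
        rw [hxx]
        have hkap : kappa (some (Sum.inr t') : Idx P) < kappa (some (Sum.inr t) : Idx P) ↔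
            (lt2 P.rho t.x t'.a t.a ∨ (t'.a = t.a ∧ toColex t'.s < toColex t.s)) := by
          simp only [kappa, WithBot.coe_lt_coe, Prod.Lex.toLex_lt_toLex, h, lt_irrefl, false_or,
            true_and, lt2, EmbeddingLike.apply_eq_iff_eq, Prod.mk.injEq]
          constructor
          · rintro ((h1 | h1) | h1)
            · exact Or.inl (Or.inl h1)
            · exact Or.inl (Or.inr h1)
            · exact Or.inr ⟨h1.1.2, h1.2⟩
          · rintro ((h1 | h1) | h1)
            · exact Or.inl (Or.inl h1)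
            · exact Or.inl (Or.inr h1)
            · exact Or.inr ⟨⟨by rw [h1.1], h1.1⟩, h1.2⟩
        by_cases haa : t'.a = t.a
        · have haa' : (⟨t'.a, ha'⟩ : s) = ⟨t.a, ha⟩ := Subtype.ext haa
          rw [haa'] at hdep ⊢
          rw [Qop_eq hac hdep]
          by_cases hlt : toColex t'.s < toColex t.s
          · rw [if_pos (hkap.mpr (Or.inr ⟨haa, hlt⟩))]
            funext w
            by_cases hz : indV s t' w = 0
            · rw [hz]; ring
            · have h1 := pat_of_indV (t := t) h haa hF hz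
              have h2 : m w = 1 := by
                simp only [m]
                rw [h1, if_pos hlt]
              rw [h2]; ring
          · rw [if_neg]
            · funext w
              by_cases hz : indV s t' w = 0
              · rw [hz]; ring
              · have h1 := pat_of_indV (t := t) h haa hF hz
                have h2 : m w = 0 := by
                  simp only [m]
                  rw [h1, if_neg hlt]
                rw [h2]; ring
            · rw [hkap]
              rintro (h1 | h1)
              · rw [haa] at h1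
                exact lt2_irrefl _ _ h1
              · exact hlt h1.2
        · rcases lt2_tri (rho := P.rho) (x := t.x) haa with h1 | h1
          · rw [if_pos (hkap.mpr (Or.inl h1))]
            exact Qop_before hac h1 hac' hdep
          · rw [if_neg]
            · exact Qop_after hac h1 hac' hdep
            · rw [hkap]
              rintro (h2 | h2)
              · exact lt2_asymm h1 h2
              · exact haa h2.1
      · rw [if_neg]
        · exact Qop_gt hac (c' := ⟨t'.x, hx⟩) h (ind_self hx ha')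
        · simp only [kappa, WithBot.coe_lt_coe, Prod.Lex.toLex_lt_toLex]
          rintro (h1 | h1)
          · exact lt_asymm h h1
          · exact h.ne h1.1.symm

end H60ER
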